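import Mathlib

set_option autoImplicit false

namespace Pool.Agent.Results.MP_6c10c0_co.Fails

open Finset

/-- The Ramsey repeated degree property. A red/blue colouring of `K_n` is given by its red graph
`R` (the blue graph is `Rᶜ`); a monochromatic copy of `G` is an injective map `f` sending all edges
of `G` to red edges, or all edges of `G` to blue edges. -/
def RRD {W : Type} (G : SimpleGraph W) : Prop :=
  ∃ N : ℕ, ∀ n : ℕ, N ≤ n → ∀ R : SimpleGraph (Fin n), ∃ f : W → Fin n, Function.Injective f ∧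
    ((∀ a b, G.Adj a b → R.Adj (f a) (f b)) ∨ (∀ a b, G.Adj a b → Rᶜ.Adj (f a) (f b))) ∧
    ∃ a b, a ≠ b ∧ (R.neighborSet (f a)).ncard = (R.neighborSet (f b)).ncard

theorem cnt (N c : ℕ) (P : ℕ → Prop) [DecidablePred P] (g g' : ℕ → ℕ)
    (h1 : ∀ i, i < c → g i < N ∧ P (g i) ∧ g' (g i) = i)
    (h2 : ∀ q, q < N → P q → g' q < c ∧ g (g' q) = q) :
    ∑ q : Fin N, (if P q then 1 else 0) = c := by
  rw [Fin.sum_univ_eq_sum_range (fun q => if P q then 1 else 0) N, ← card_filter]
  conv_rhs => rw [← card_range c]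
  apply card_nbij' g' g
  · intro q hq
    simp only [coe_filter, mem_range, Set.mem_ofPred_eq, coe_range, Set.mem_Iio] at hq ⊢
    exact (h2 q hq.1 hq.2).1
  · intro i hi
    simp only [coe_filter, mem_range, Set.mem_ofPred_eq, coe_range, Set.mem_Iio] at hi ⊢
    exact ⟨(h1 i hi).1, (h1 i hi).2.1⟩
  · intro q hq
    simp only [coe_filter, mem_range, Set.mem_ofPred_eq] at hq
    exact (h2 q hq.1 hq.2).2
  · intro i hi
    simp only [coe_range, Set.mem_Iio] at hi
    exact (h1 i hi).2.2

theorem cnt_not (N : ℕ) (P : ℕ → Prop) [DecidablePred P] :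
    ∑ q : Fin N, (if ¬ P q then 1 else 0) + ∑ q : Fin N, (if P q then 1 else 0) = N := by
  rw [← sum_add_distrib]
  have : ∀ q : Fin N, ((if ¬ P q then 1 else 0) + (if P q then 1 else 0) : ℕ) = 1 := by
    intro q; by_cases h : P q <;> simp [h]
  simp only [this, sum_const, card_univ, Fintype.card_fin, smul_eq_mul, mul_one]

abbrev V (z : ℕ) : Type := (Fin (20 * z + 10) ⊕ Fin (20 * z + 10)) ⊕ (Fin 2 × Fin 2 × Fin (10 * z + 4))

def I (z q s r : ℕ) : Prop :=
  q % 2 = s ∧ ((r < 5 * z + 2 ∧ q / 2 ≤ r) ∨ (5 * z + 2 ≤ r ∧ 10 * z + 5 ≤ q / 2 + r + 1))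

instance (z q s r : ℕ) : Decidable (I z q s r) := by unfold I; infer_instance

def red (z : ℕ) : V z → V z → Prop
  | .inl (.inl a), .inl (.inl a') => a.val ≠ a'.val ∧ a.val % 5 = a'.val % 5
  | .inl (.inr b), .inl (.inr b') => ¬ (b.val % 5 = b'.val % 5)
  | .inl (.inl a), .inl (.inr b) => b.val < a.val
  | .inl (.inr b), .inl (.inl a) => b.val < a.val
  | .inl (.inl a), .inr p => p.1.val = 0 ∧ I z a.val p.2.1.val p.2.2.val
  | .inr p, .inl (.inl a) => p.1.val = 0 ∧ I z a.val p.2.1.val p.2.2.val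
  | .inl (.inr b), .inr p => ¬ (p.1.val = 1 ∧ I z b.val p.2.1.val p.2.2.val)
  | .inr p, .inl (.inr b) => ¬ (p.1.val = 1 ∧ I z b.val p.2.1.val p.2.2.val)
  | .inr p, .inr p' => p.2.1.val ≠ p'.2.1.val

def H (z : ℕ) : SimpleGraph (V z) where
  Adj := red z
  symm := ⟨by
    rintro ((a | a) | p) ((b | b) | q) h <;> simp only [red] at h ⊢ <;> first | exact h | omega⟩
  loopless := ⟨by
    rintro ((a | a) | p) h <;> simp [red] at h⟩

open Classical in
noncomputable def deg (z : ℕ) (v : V z) : ℕ := ∑ w : V z, if red z v w then 1 else 0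

theorem ncard_eq (z : ℕ) (v : V z) : ((H z).neighborSet v).ncard = deg z v := by
  classical
  have : (H z).neighborSet v = ((univ.filter (fun w => red z v w) : Finset (V z)) : Set (V z)) := by
    ext w; simp [H]
  rw [this, Set.ncard_coe_finset, card_filter, deg]

theorem c5 (z q : ℕ) : ∑ a : Fin (20 * z + 10), (if q % 5 = a.val % 5 then 1 else 0) = 4 * z + 2 :=
  cnt _ _ (fun a => q % 5 = a % 5) (fun i => 5 * i + q % 5) (fun a => a / 5)
    (fun i hi => by omega) (fun a ha h => by omega)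

theorem c5' (z q : ℕ) (hq : q < 20 * z + 10) :
    ∑ a : Fin (20 * z + 10), (if q ≠ a.val ∧ q % 5 = a.val % 5 then 1 else 0) = 4 * z + 1 :=
  cnt _ _ (fun a => q ≠ a ∧ q % 5 = a % 5)
    (fun i => if i < q / 5 then 5 * i + q % 5 else 5 * i + 5 + q % 5)
    (fun a => if a < q then a / 5 else a / 5 - 1)
    (fun i hi => by split_ifs <;> omega) (fun a ha h => by split_ifs <;> omega)

theorem clt (N q : ℕ) (hq : q < N) : ∑ a : Fin N, (if a.val < q then 1 else 0) = q :=
  cnt _ _ (fun a => a < q) (fun i => i) (fun a => a) (fun i hi => by omega) (fun a ha h => by omega)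

theorem cgt (N q : ℕ) (hq : q < N) : ∑ a : Fin N, (if q < a.val then 1 else 0) = N - q - 1 :=
  cnt _ _ (fun a => q < a) (fun i => q + 1 + i) (fun a => a - (q + 1))
    (fun i hi => by omega) (fun a ha h => by omega)

theorem cr (z q s : ℕ) (hq : q < 20 * z + 10) :
    ∑ r : Fin (10 * z + 4), (if I z q s r.val then 1 else 0) = if q % 2 = s then 5 * z + 2 else 0 := by
  split_ifs with h
  · exact cnt _ _ (fun r => I z q s r) (fun i => if q / 2 ≤ i then i else 10 * z + 3 - i)
      (fun r => if r < 5 * z + 2 then r else 10 * z + 3 - r)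
      (fun i hi => by unfold I; split_ifs <;> omega)
      (fun a ha h => by unfold I at h; split_ifs <;> omega)
  · exact cnt _ _ (fun r => I z q s r) (fun i => i) (fun i => i)
      (fun i hi => by omega) (fun a ha h => by unfold I at h; omega)

theorem cq (z s r : ℕ) (hs : s < 2) (hr : r < 10 * z + 4) :
    ∑ q : Fin (20 * z + 10), (if I z q.val s r then 1 else 0) = r + 1 :=
  cnt _ _ (fun q => I z q s r)
    (fun i => if r < 5 * z + 2 then 2 * i + s else 2 * (10 * z + 4 - r + i) + s)
    (fun q => if r < 5 * z + 2 then q / 2 else q / 2 - (10 * z + 4 - r))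
    (fun i hi => by unfold I; split_ifs <;> omega)
    (fun a ha h => by unfold I at h; split_ifs <;> omega)

theorem degA (z : ℕ) (a : Fin (20 * z + 10)) : deg z (.inl (.inl a)) = a.val + 9 * z + 3 := by
  have h1 := c5' z a.val a.isLt
  have h2 := clt _ a.val a.isLt
  have h3 := cr z a.val 0 a.isLt
  have h4 := cr z a.val 1 a.isLt
  simp only [deg, Fintype.sum_sum_type, Fintype.sum_prod_type, Fin.sum_univ_two, red,
    Fin.val_zero, Fin.val_one, true_and, one_ne_zero, false_and, if_false, sum_const_zero]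
  have e : ∀ (x y u v x' y' u' v' : ℕ), x = x' → y = y' → u = u' → v = v' →
    x' + y' + (u' + v' + (0 + 0)) = a.val + 9 * z + 3 →
    x + y + (u + v + (0 + 0)) = a.val + 9 * z + 3 := by intros; omega
  refine e _ _ _ _ _ _ _ _ (by convert h1) (by convert h2) (by convert h3) (by convert h4) ?_
  split_ifs <;> omega

theorem degB (z : ℕ) (b : Fin (20 * z + 10)) : deg z (.inl (.inr b)) + b.val = 71 * z + 31 := by
  have h1 := c5 z b.val
  have h1' := cnt_not (20 * z + 10) (fun a => b.val % 5 = a % 5)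
  have h2 := cgt _ b.val b.isLt
  have h3 := cr z b.val 0 b.isLt
  have h4 := cr z b.val 1 b.isLt
  have h3' := cnt_not (10 * z + 4) (fun r => I z b.val 0 r)
  have h4' := cnt_not (10 * z + 4) (fun r => I z b.val 1 r)
  rw [h1] at h1'
  rw [h3] at h3'
  rw [h4] at h4'
  simp only [deg, Fintype.sum_sum_type, Fintype.sum_prod_type, Fin.sum_univ_two, red,
    Fin.val_zero, Fin.val_one, true_and, zero_ne_one, false_and, not_false_eq_true, if_true,
    sum_const, card_univ, Fintype.card_fin, smul_eq_mul, mul_one]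
  have hb := b.isLt
  have e : ∀ (x y u v : ℕ), x = 20 * z + 10 - b.val - 1 → y + (4 * z + 2) = 20 * z + 10 →
    u + (if b.val % 2 = 0 then 5 * z + 2 else 0) = 10 * z + 4 →
    v + (if b.val % 2 = 1 then 5 * z + 2 else 0) = 10 * z + 4 →
    x + y + (10 * z + 4 + (10 * z + 4) + (u + v)) + b.val = 71 * z + 31 := by
    intro x y u v e1 e2 e3 e4
    split_ifs at e3 e4 <;> omega
  exact e _ _ _ _ (by convert h2) (by convert h1') (by convert h3') (by convert h4')

theorem degP0 (z : ℕ) (s : Fin 2) (r : Fin (10 * z + 4)) :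
    deg z (.inr (0, s, r)) = r.val + 40 * z + 19 := by
  have h1 := cq z s.val r.val s.isLt r.isLt
  have hs : s = 0 ∨ s = 1 := by omega
  rcases hs with rfl | rfl <;>
  simp only [deg, Fintype.sum_sum_type, Fintype.sum_prod_type, Fin.sum_univ_two, red,
    Fin.val_zero, Fin.val_one, true_and, zero_ne_one, one_ne_zero, false_and, not_false_eq_true,
    if_true, ne_eq, not_true_eq_false, if_false, sum_const_zero,
    sum_const, card_univ, Fintype.card_fin, smul_eq_mul, mul_one] at h1 ⊢ <;> omega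

theorem degP1 (z : ℕ) (s : Fin 2) (r : Fin (10 * z + 4)) :
    deg z (.inr (1, s, r)) + r.val = 40 * z + 17 := by
  have h1 := cq z s.val r.val s.isLt r.isLt
  have h1' := cnt_not (20 * z + 10) (fun q => I z q s.val r.val)
  rw [h1] at h1'
  have hs : s = 0 ∨ s = 1 := by omega
  rcases hs with rfl | rfl <;>
  simp only [deg, Fintype.sum_sum_type, Fintype.sum_prod_type, Fin.sum_univ_two, red,
    Fin.val_zero, Fin.val_one, true_and, zero_ne_one, one_ne_zero, false_and, not_false_eq_true,
    if_true, ne_eq, not_true_eq_false, if_false, sum_const_zero,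
    sum_const, card_univ, Fintype.card_fin, smul_eq_mul, mul_one] at h1' ⊢ <;> omega

theorem degP (z : ℕ) (t s : Fin 2) (r : Fin (10 * z + 4)) :
    (t.val = 0 ∧ deg z (.inr (t, s, r)) = r.val + 40 * z + 19) ∨
    (t.val = 1 ∧ deg z (.inr (t, s, r)) + r.val = 40 * z + 17) := by
  fin_cases t
  · exact Or.inl ⟨rfl, degP0 z s r⟩
  · exact Or.inr ⟨rfl, degP1 z s r⟩

theorem twins (z : ℕ) (hz : 1 ≤ z) (v w : V z) (hne : v ≠ w) (h : deg z v = deg z w) :
    ∃ t s s' r, v = .inr (t, s, r) ∧ w = .inr (t, s', r) ∧ s.val ≠ s'.val := by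
  rcases v with ((a | a) | ⟨t, s, r⟩) <;> rcases w with ((b | b) | ⟨t', s', r'⟩)
  · have := degA z a; have := degA z b
    exact absurd (by rw [show a = b from Fin.ext (by omega)]) hne
  · have := degA z a; have := degB z b; have := a.isLt; have := b.isLt; omega
  · have := degA z a; have := degP z t' s' r'; have := a.isLt; have := r'.isLt; omega
  · have := degB z a; have := degA z b; have := a.isLt; have := b.isLt; omega
  · have := degB z a; have := degB z b
    exact absurd (by rw [show a = b from Fin.ext (by omega)]) hne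
  · have := degB z a; have := degP z t' s' r'; have := a.isLt; have := r'.isLt; omega
  · have := degA z b; have := degP z t s r; have := b.isLt; have := r.isLt; omega
  · have := degB z b; have := degP z t s r; have := b.isLt; have := r.isLt; omega
  · have := degP z t s r; have := degP z t' s' r'
    have h1 : t = t' := Fin.ext (by omega)
    have h2 : r = r' := Fin.ext (by omega)
    subst h1 h2
    refine ⟨t, s, s', r, rfl, rfl, fun h3 => hne ?_⟩
    rw [show s = s' from Fin.ext h3]

def res (z : ℕ) : V z → ℕ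
  | .inl (.inl a) => a.val % 5
  | .inl (.inr a) => a.val % 5
  | .inr _ => 0

theorem res_lt (z : ℕ) (v : V z) : res z v ∈ range 5 := by
  rcases v with ((a | a) | p) <;> simp only [res, mem_range] <;> omega

theorem not_RRD {W : Type} (G : SimpleGraph W)
    (hG : ∀ a b, a ≠ b → ∃ S : Finset W, S.card = 6 ∧ (∀ s ∈ S, G.Adj a s ∧ G.Adj b s) ∧
      ∀ s ∈ S, ∀ t ∈ S, s ≠ t → G.Adj s t) : ¬ RRD G := by
  rintro ⟨N, hN⟩
  set z := N + 1 with hz
  have hcard : N ≤ Fintype.card (V z) := by
    simp only [Fintype.card_sum, Fintype.card_fin]; omega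
  set e := (Fintype.equivFin (V z)).symm with he
  obtain ⟨f, hf, hmono, a, b, hab, hdeg⟩ := hN _ hcard ((H z).comap e)
  have hn : ∀ i, (((H z).comap e).neighborSet i).ncard = deg z (e i) := by
    intro i
    rw [← ncard_eq, ← Nat.card_coe_set_eq, ← Nat.card_coe_set_eq]
    exact Nat.card_congr (Equiv.subtypeEquiv e (fun _ => Iff.rfl))
  rw [hn, hn] at hdeg
  have hinj : Function.Injective (fun c => e (f c)) := e.injective.comp hf
  obtain ⟨t, s, s', r, hu, hv, hss⟩ := twins z (by omega) _ _ (hinj.ne hab) hdeg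
  obtain ⟨S, hS, hS1, hS2⟩ := hG a b hab
  obtain ⟨c, hc, d, hd, hcd, hres⟩ := exists_ne_map_eq_of_card_lt_of_maps_to
    (s := S) (t := range 5) (by rw [hS, card_range]; omega) (f := fun c => res z (e (f c)))
    (fun c _ => res_lt z _)
  have hs := s.isLt
  have hs' := s'.isLt
  have hne := hinj.ne hcd
  rcases hmono with h | h
  · have h1 : red z (e (f a)) (e (f c)) := h _ _ (hS1 c hc).1
    have h2 : red z (e (f b)) (e (f c)) := h _ _ (hS1 c hc).2
    have h3 : red z (e (f a)) (e (f d)) := h _ _ (hS1 d hd).1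
    have h4 : red z (e (f b)) (e (f d)) := h _ _ (hS1 d hd).2
    have h5 : red z (e (f c)) (e (f d)) := h _ _ (hS2 c hc d hd hcd)
    rw [hu] at h1 h3
    rw [hv] at h2 h4
    generalize e (f c) = x at *
    generalize e (f d) = y at *
    rcases x with ((x | x) | ⟨x1, x2, x3⟩) <;> rcases y with ((y | y) | ⟨y1, y2, y3⟩) <;>
      simp only [red, res, I] at h1 h2 h3 h4 h5 hres <;> omega
  · have h1 : ¬ red z (e (f a)) (e (f c)) := (h _ _ (hS1 c hc).1).2
    have h2 : ¬ red z (e (f b)) (e (f c)) := (h _ _ (hS1 c hc).2).2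
    have h3 : ¬ red z (e (f a)) (e (f d)) := (h _ _ (hS1 d hd).1).2
    have h4 : ¬ red z (e (f b)) (e (f d)) := (h _ _ (hS1 d hd).2).2
    have h5 : ¬ red z (e (f c)) (e (f d)) := (h _ _ (hS2 c hc d hd hcd)).2
    rw [hu] at h1 h3
    rw [hv] at h2 h4
    generalize e (f c) = x at *
    generalize e (f d) = y at *
    rcases x with ((x | x) | ⟨x1, x2, x3⟩) <;> rcases y with ((y | y) | ⟨y1, y2, y3⟩) <;>
      simp only [red, res, I] at h1 h2 h3 h4 h5 hres <;> try omega
    exact hne (by rw [show x = y from Fin.ext (by omega)])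

theorem kme (m : ℕ) (a b : Fin m) (hm : 9 ≤ m) :
    ¬ RRD ((⊤ : SimpleGraph (Fin m)).deleteEdges {s(a, b)}) := by
  apply not_RRD
  intro u v huv
  have key : ∀ T : Finset (Fin m), T.card ≤ 3 → ∃ S : Finset (Fin m), S.card = 6 ∧
      ∀ s ∈ S, s ∉ T := by
    intro T hT
    obtain ⟨S, h1, h2⟩ := exists_subset_card_eq (s := Tᶜ) (n := 6)
      (by rw [card_compl, Fintype.card_fin]; omega)
    exact ⟨S, h2, fun s hs => mem_compl.1 (h1 hs)⟩
  have c3 : ∀ x y w : Fin m, ({x, y, w} : Finset (Fin m)).card ≤ 3 := fun x y w => card_le_three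
  by_cases h : u = b ∨ v = b
  · obtain ⟨S, h1, h2⟩ := key {u, v, a} (c3 _ _ _)
    refine ⟨S, h1, fun s hs => ?_, fun s hs t ht hst => ?_⟩
    · have := h2 s hs
      simp only [mem_insert, mem_singleton, not_or] at this
      simp only [SimpleGraph.deleteEdges_adj, SimpleGraph.top_adj, Set.mem_singleton_iff,
        Sym2.eq_iff]
      rcases h with rfl | rfl <;> refine ⟨⟨?_, ?_⟩, ?_, ?_⟩ <;> tauto
    · have h3 := h2 s hs
      have h4 := h2 t ht
      simp only [mem_insert, mem_singleton, not_or] at h3 h4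
      simp only [SimpleGraph.deleteEdges_adj, SimpleGraph.top_adj, Set.mem_singleton_iff,
        Sym2.eq_iff]
      tauto
  · obtain ⟨S, h1, h2⟩ := key {u, v, b} (c3 _ _ _)
    refine ⟨S, h1, fun s hs => ?_, fun s hs t ht hst => ?_⟩
    · have := h2 s hs
      simp only [mem_insert, mem_singleton, not_or] at this
      simp only [SimpleGraph.deleteEdges_adj, SimpleGraph.top_adj, Set.mem_singleton_iff,
        Sym2.eq_iff]
      refine ⟨⟨?_, ?_⟩, ?_, ?_⟩ <;> tauto
    · have h3 := h2 s hs
      have h4 := h2 t ht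
      simp only [mem_insert, mem_singleton, not_or] at h3 h4
      simp only [SimpleGraph.deleteEdges_adj, SimpleGraph.top_adj, Set.mem_singleton_iff,
        Sym2.eq_iff]
      tauto

/-- There is a graph on at least two vertices, isomorphic to no complete graph, without the Ramsey
repeated degree property; indeed `K_m` minus an edge fails it for every `m ≥ 9`. -/
theorem result :
    (∃ (m : ℕ) (G : SimpleGraph (Fin m)), 2 ≤ m ∧
      (∀ k : ℕ, IsEmpty (G ≃g (⊤ : SimpleGraph (Fin k)))) ∧ ¬ RRD G) ∧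
    ∀ (m : ℕ) (a b : Fin m), 9 ≤ m → a ≠ b →
      ¬ RRD ((⊤ : SimpleGraph (Fin m)).deleteEdges {s(a, b)}) := by
  refine ⟨⟨9, (⊤ : SimpleGraph (Fin 9)).deleteEdges {s(0, 1)}, by omega, fun k => ⟨fun φ => ?_⟩,
    kme 9 0 1 le_rfl⟩, fun m a b hm _ => kme m a b hm⟩
  have h : (⊤ : SimpleGraph (Fin k)).Adj (φ 0) (φ 1) := by
    rw [SimpleGraph.top_adj]
    exact φ.injective.ne (by decide)
  rw [φ.map_adj_iff] at h
  simp at h

end Pool.Agent.Results.MP_6c10c0_co.Fails
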